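import Pool.Agent.Q205.Liou.Coord

/-!
# The planar `n`-body problem near a Lyapunov stable orbit

The definitions of the planar `n`-body problem are those of the starting file
`Pool/Agent/W821/TB/Base.lean` (also used in `StableOrbitsLockRotations`):

* `Ph n = (Fin n → ℂ) × (Fin n → ℂ)`, positions and velocities in the plane `ℂ`;
* `acc m q a`, the Newtonian acceleration of body `a`;
* `phaseSpace m`, the phase points without collisions in the centre of mass frame;
* `IsSol m J y`, the curve `y` solves Newton's equations on the time set `J` in `phaseSpace m`;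
* `DistPer x T`, all mutual distances along `x` are `T`-periodic; `IsRelEq x`, they are constant.

From `Pool/Agent/Q205/Liou`:

* `IsCoord m e`, `e` gives linear coordinates (by `ℝ ^ d`) on the space of all `(q, v)` with
  `∑ m_a q_a = 0`, `∑ m_a v_a = 0`; `AlmostEvery m P`, `Generic m P`: in linear coordinates, `P`
  holds for Lebesgue almost every point, for all points of a residual set;
* `Stable m K`, Lyapunov stability: for every open `U₁ ⊇ K` there is an open `U₂ ⊇ K` such that
  every solution on an interval `[0, τ]` which starts in `U₂` stays in `U₁`;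
* `Recurrent m z`, the solution through `z` exists for all times and comes back arbitrarily close
  to `z` for arbitrarily large positive and arbitrarily large negative times;
* `Locked m k z`, if `|c| = 1` and `c z` is in the closure of the orbit of `z`, then `c ^ k = 1`.
-/

set_option autoImplicit false

namespace Pool.Agent.Results.MP_5027f4_mp.RecurrenceNearStableOrbits

open Set MeasureTheory Filter Topology Pool.Agent.W821.TB Pool.Agent.Q205.Liou

/-- all solutions through points of `O` exist and stay in `O` for all positive and negative times;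
a solution on an interval which is in `O` at one time is in `O` at all times -/
def InvariantNbhd {n : ℕ} (m : Fin n → ℝ) (O : Set (Ph n)) : Prop :=
  (∀ z ∈ O, z ∈ phaseSpace m → ∃ y : ℝ → Ph n, IsSol m Set.univ y ∧ y 0 = z ∧ ∀ t, y t ∈ O) ∧
  (∀ J : Set ℝ, J.OrdConnected → ∀ y : ℝ → Ph n, IsSol m J y → ∀ t₀ ∈ J, y t₀ ∈ O →
    ∀ t ∈ J, y t ∈ O)

/-- `P` holds for almost every and for generic points of `O` (in the centre of mass space) -/
def MostPoints {n : ℕ} (m : Fin n → ℝ) (O : Set (Ph n)) (P : Ph n → Prop) : Prop :=
  AlmostEvery m (fun z => z ∈ O → P z) ∧ Generic m (fun z => z ∈ O → P z)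

/-- a solution on an interval lies in `K` or keeps a positive distance from `K` -/
def Unapproached {n : ℕ} (m : Fin n → ℝ) (K : Set (Ph n)) : Prop :=
  ∀ J : Set ℝ, J.OrdConnected → ∀ y : ℝ → Ph n, IsSol m J y →
    (∀ t ∈ J, y t ∈ K) ∨ ∃ ε : ℝ, 0 < ε ∧ ∀ t ∈ J, ∀ k ∈ K, ε ≤ dist (y t) k

/-- every neighbourhood of `K` contains an open `O ⊇ K` which is invariant in both time directions
and in which almost all and generic points are recurrent -/
def RecurrentNbhds {n : ℕ} (m : Fin n → ℝ) (K : Set (Ph n)) : Prop :=
  ∀ U : Set (Ph n), IsOpen U → K ⊆ U → ∃ O : Set (Ph n), IsOpen O ∧ K ⊆ O ∧ O ⊆ U ∧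
    InvariantNbhd m O ∧ MostPoints m O (Recurrent m)

/-- in a neighbourhood `O` of `K` the recurrent points, hence almost all and generic points, are
`k`-locked -/
def LockedNbhd {n : ℕ} (m : Fin n → ℝ) (k : ℕ) (K : Set (Ph n)) : Prop :=
  ∃ O : Set (Ph n), IsOpen O ∧ K ⊆ O ∧ (∀ z ∈ O, Recurrent m z → Locked m k z) ∧
    MostPoints m O (fun z => Recurrent m z ∧ Locked m k z)

/-- **Theorem.** Planar `n`-body problem with masses `m`, centre of mass frame.

1. Let `K` be a compact Lyapunov stable set of phase points. Every open `U ⊇ K` contains an open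
   `O ⊇ K` such that every solution through a point of `O` exists for all times and stays in `O`
   for all positive and negative times, every solution which is in `O` at one time is in `O` at
   all times of its interval, and almost every point and generic points of `O` are recurrent.
2. A solution on an interval either lies in `K` or keeps a positive distance from `K`; in
   particular no other solution is asymptotic to `K`, or comes arbitrarily close to `K`, in
   either time direction.
3. Let `n ≥ 2`, all masses positive, `x` a relative periodic solution, not a relative equilibrium,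
   with Lyapunov stable orbit. Then `x` is periodic with period `2 k T`, the rotations preserving
   its orbit are the `k`-th roots of unity for some `k ≥ 1`, and there is a neighbourhood `O` of the
   orbit such that for every recurrent `z ∈ O`, hence for almost every and for generic `z ∈ O`, the
   closure of the orbit of `z` contains no rotated copy `c z` except with `c ^ k = 1`. -/
theorem result {n : ℕ} (m : Fin n → ℝ) :
    (∀ K : Set (Ph n), IsCompact K → K ⊆ phaseSpace m → Stable m K →
      RecurrentNbhds m K ∧ Unapproached m K) ∧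
    (2 ≤ n → (∀ a, 0 < m a) → ∀ (x : ℝ → Ph n) (T : ℝ), IsSol m Set.univ x → 0 < T →
      DistPer x T → ¬ IsRelEq x → Stable m (Set.range x) →
      ∃ k : ℕ, 1 ≤ k ∧ (∀ t, x (t + 2 * k * T) = x t) ∧
        (∀ c : ℂ, ‖c‖ = 1 → ((∀ t, c • x t ∈ Set.range x) ↔ c ^ k = 1)) ∧
        LockedNbhd m k (Set.range x)) := by
  refine ⟨fun K hK hKp hst => ⟨fun U hU hKU => ?_,
    fun J hJ y hy => part_two hK hKp hst hJ hy⟩, ?_⟩
  · obtain ⟨O, hO, hKO, hOU, h1, h2, h3, h4⟩ := part_one hK hKp hst hU hKU
    exact ⟨O, hO, hKO, hOU, ⟨h1, h2⟩, almostEvery_of h3, generic_of h4⟩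
  intro hn hm x T hx hT0 hT hne hst
  obtain ⟨k, hk, hk2, hcomp, hper, O₁, hO₁, hxO₁, hlock⟩ := part_three hn hm hx hT0 hT hne hst
  have hxp : Set.range x ⊆ phaseSpace m := by
    rintro _ ⟨t, rfl⟩
    exact hx.mem t
  obtain ⟨O, hO, hxO, hOO, -, -, hae, hres⟩ := part_one hcomp hxp hst hO₁ hxO₁
  refine ⟨k, hk, hper, hk2, O, hO, hxO, fun z hz hr => hlock z (hOO hz) hr, ?_, ?_⟩
  · refine almostEvery_of fun μ hμ => ?_
    filter_upwards [hae μ hμ] with z hz hzO
    exact ⟨hz hzO, hlock _ (hOO hzO) (hz hzO)⟩
  · refine generic_of ?_
    filter_upwards [hres] with z hz hzO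
    exact ⟨hz hzO, hlock _ (hOO hzO) (hz hzO)⟩

end Pool.Agent.Results.MP_5027f4_mp.RecurrenceNearStableOrbits
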