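import Mathlib

/-!
# Lyapunov stable orbits for generic masses are robustly stable

`𝓕` is the space of the masses, `X` the phase space (the non-collision initial conditions in the
centre of mass frame) and `Φ : LocalFlows 𝓕 X` the family of the flows: `(f, t, x) ∈ Φ.D` means that
the solution with masses `f` and initial condition `x` exists at the time `t`, and `Φ.φ f t x` is its
value there.

Stability is considered for compact sets `K`. If `γ` is a relative periodic orbit of the planar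
three-body problem, its closure `K` is compact (a circle or a torus), and if `γ` is Lyapunov stable,
so is `K`, by the rotational symmetry.
-/

set_option autoImplicit false

namespace Pool.Agent.Results.MP_5027f4_mp.RobustStability

open Filter Topology Set

/-- a family of (not necessarily complete) flows with parameters in `𝓕` -/
structure LocalFlows (𝓕 X : Type*) [TopologicalSpace 𝓕] [TopologicalSpace X] where
  /-- `(f, t, x) ∈ D`: the solution for `f` with initial condition `x` exists at time `t` -/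
  D : Set (𝓕 × ℝ × X)
  /-- the solutions -/
  φ : 𝓕 → ℝ → X → X
  isOpen_D : IsOpen D
  zero_mem : ∀ f x, (f, 0, x) ∈ D
  zero : ∀ f x, φ f 0 x = x
  cont : ContinuousOn (fun z : 𝓕 × ℝ × X => φ z.1 z.2.1 z.2.2) D

/-- for the masses `f` the forward solutions starting in `V` stay in `U` -/
def StaysIn {𝓕 X : Type*} [TopologicalSpace 𝓕] [TopologicalSpace X] (Φ : LocalFlows 𝓕 X)
    (f : 𝓕) (V U : Set X) : Prop :=
  ∀ x ∈ V, ∀ t : ℝ, 0 ≤ t → (f, t, x) ∈ Φ.D → Φ.φ f t x ∈ U

/-- `K` is Lyapunov stable for the masses `f` -/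
def LyapunovStable {𝓕 X : Type*} [TopologicalSpace 𝓕] [TopologicalSpace X] (Φ : LocalFlows 𝓕 X)
    (f : 𝓕) (K : Set X) : Prop :=
  ∀ U : Set X, IsOpen U → K ⊆ U → ∃ V : Set X, IsOpen V ∧ K ⊆ V ∧ StaysIn Φ f V U

/-- `K` is robustly stable: the same neighbourhood `V` works for all masses near `f` -/
def RobustlyStable {𝓕 X : Type*} [TopologicalSpace 𝓕] [TopologicalSpace X] (Φ : LocalFlows 𝓕 X)
    (f : 𝓕) (K : Set X) : Prop :=
  ∀ U : Set X, IsOpen U → K ⊆ U → ∃ V : Set X, IsOpen V ∧ K ⊆ V ∧ ∃ 𝓥 : Set 𝓕, IsOpen 𝓥 ∧ f ∈ 𝓥 ∧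
    ∀ f' ∈ 𝓥, StaysIn Φ f' V U

theorem exists_finset {X : Type*} [TopologicalSpace X] [SecondCountableTopology X] {K U : Set X}
    (hK : IsCompact K) (hU : IsOpen U) (hKU : K ⊆ U) :
    ∃ S : Finset (TopologicalSpace.countableBasis X), K ⊆ ⋃ B ∈ S, (B : Set X) ∧
      (⋃ B ∈ S, (B : Set X)) ⊆ U := by
  classical
  have hcov : K ⊆ ⋃ B : {B : TopologicalSpace.countableBasis X // (B : Set X) ⊆ U},
      ((B : TopologicalSpace.countableBasis X) : Set X) := by
    intro x hx
    obtain ⟨B, hB, hxB, hBU⟩ := (TopologicalSpace.isBasis_countableBasis X).mem_nhds_iff.1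
      (hU.mem_nhds (hKU hx))
    exact mem_iUnion.2 ⟨⟨⟨B, hB⟩, hBU⟩, hxB⟩
  obtain ⟨t, ht⟩ := hK.elim_finite_subcover _
    (fun B => TopologicalSpace.isOpen_of_mem_countableBasis B.1.2) hcov
  refine ⟨t.image Subtype.val, ?_, ?_⟩
  · intro x hx
    obtain ⟨B, hB, hxB⟩ := mem_iUnion₂.1 (ht hx)
    exact mem_iUnion₂.2 ⟨B.1, Finset.mem_image_of_mem _ hB, hxB⟩
  · intro x hx
    obtain ⟨B, hB, hxB⟩ := mem_iUnion₂.1 hx
    obtain ⟨B', _, rfl⟩ := Finset.mem_image.1 hB
    exact B'.2 hxB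

/-- **Theorem.** Let `X` be a locally compact Hausdorff space with countable basis.
1. For generic masses `f` EVERY Lyapunov stable compact set `K` is robustly stable: for every
   neighbourhood `U` of `K` there are a neighbourhood `V` of `K` and a neighbourhood `𝓥` of `f` such
   that for all masses in `𝓥` all solutions starting in `V` stay in `U` for all `t ≥ 0`.
2. If the masses for which there is a nonempty Lyapunov stable compact set in the open set `Ω` do not
   form a meagre set, there are a nonempty open set `𝓥` of masses, a nonempty open set `V ⊆ Ω` and a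
   compact set `C ⊆ Ω` such that for all masses in `𝓥` all forward solutions starting in `V` stay in
   `C`. -/
theorem result {𝓕 X : Type*} [TopologicalSpace 𝓕] [TopologicalSpace X] [T2Space X]
    [LocallyCompactSpace X] [SecondCountableTopology X] (Φ : LocalFlows 𝓕 X) :
    (∀ᶠ f in residual 𝓕, ∀ K : Set X, IsCompact K → LyapunovStable Φ f K →
      RobustlyStable Φ f K) ∧
    (∀ Ω : Set X, IsOpen Ω →
      ¬ IsMeagre {f | ∃ K : Set X, IsCompact K ∧ K.Nonempty ∧ K ⊆ Ω ∧ LyapunovStable Φ f K} →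
      ∃ 𝓥 : Set 𝓕, IsOpen 𝓥 ∧ 𝓥.Nonempty ∧ ∃ V : Set X, IsOpen V ∧ V.Nonempty ∧ V ⊆ Ω ∧
        ∃ C : Set X, IsCompact C ∧ C ⊆ Ω ∧ ∀ f ∈ 𝓥, StaysIn Φ f V C) := by
  classical
  set ℬ := TopologicalSpace.countableBasis X
  haveI : Countable ℬ := (TopologicalSpace.countable_countableBasis X).to_subtype
  have h1 : ∀ᶠ f in residual 𝓕, ∀ K : Set X, IsCompact K → LyapunovStable Φ f K →
      RobustlyStable Φ f K := by
    set O : Finset ℬ × Finset ℬ → Set 𝓕 := fun a => {f | ∃ x ∈ (⋃ B ∈ a.1, (B : Set X)), ∃ t : ℝ,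
      0 ≤ t ∧ (f, t, x) ∈ Φ.D ∧ Φ.φ f t x ∈ (closure (⋃ B ∈ a.2, (B : Set X)))ᶜ} with hO
    have hOo : ∀ a, IsOpen (O a) := by
      intro a
      have : O a = ⋃ x : {x : X // x ∈ (⋃ B ∈ a.1, (B : Set X))}, ⋃ t : {t : ℝ // 0 ≤ t},
          {f | (f, (t : ℝ), (x : X)) ∈ Φ.D ∧
            Φ.φ f t x ∈ (closure (⋃ B ∈ a.2, (B : Set X)))ᶜ} := by
        ext f
        simp only [hO, mem_setOf_eq, mem_iUnion, Subtype.exists, exists_prop]
      rw [this]
      refine isOpen_iUnion fun x => isOpen_iUnion fun t => ?_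
      have hi : Continuous (fun f : 𝓕 => (f, (t : ℝ), (x : X))) := by fun_prop
      have hc : ContinuousOn (fun f : 𝓕 => Φ.φ f t x) {f | (f, (t : ℝ), (x : X)) ∈ Φ.D} :=
        Φ.cont.comp hi.continuousOn (fun z hz => hz)
      exact hc.isOpen_inter_preimage (Φ.isOpen_D.preimage hi) isClosed_closure.isOpen_compl
    have hres : ∀ᶠ f in residual 𝓕, ∀ a : Finset ℬ × Finset ℬ, f ∉ frontier (O a) := by
      rw [eventually_countable_forall]
      intro a
      have hd : Dense (frontier (O a))ᶜ := by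
        have := interior_frontier (hOo a).isClosed_compl
        rw [frontier_compl] at this
        exact interior_eq_empty_iff_dense_compl.1 this
      exact residual_of_dense_open isClosed_frontier.isOpen_compl hd
    filter_upwards [hres] with f hf K hK hst U hU hKU
    obtain ⟨W, hW, hKW, hWU⟩ := hK.exists_isOpen_closure_subset (hU.mem_nhdsSet.2 hKU)
    obtain ⟨T, hKT, hTW⟩ := exists_finset hK hW hKW
    have hTo : IsOpen (⋃ B ∈ T, (B : Set X)) := isOpen_iUnion fun B => isOpen_iUnion fun _ =>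
      TopologicalSpace.isOpen_of_mem_countableBasis B.2
    obtain ⟨V', hV', hKV', hstay⟩ := hst _ hTo hKT
    obtain ⟨S, hKS, hSV⟩ := exists_finset hK hV' hKV'
    have hSo : IsOpen (⋃ B ∈ S, (B : Set X)) := isOpen_iUnion fun B => isOpen_iUnion fun _ =>
      TopologicalSpace.isOpen_of_mem_countableBasis B.2
    have hfn : f ∉ O (S, T) := by
      rintro ⟨x, hx, t, ht, hD, hn⟩
      exact hn (subset_closure (hstay x (hSV hx) t ht hD))
    have hcl : f ∉ closure (O (S, T)) := by
      intro hcl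
      exact hf (S, T) ⟨hcl, by rwa [(hOo (S, T)).interior_eq]⟩
    refine ⟨_, hSo, hKS, (closure (O (S, T)))ᶜ, isClosed_closure.isOpen_compl, hcl, ?_⟩
    intro f' hf' x hx t ht hD
    by_contra hn
    apply hf'
    apply subset_closure
    refine ⟨x, hx, t, ht, hD, fun hmem => hn ?_⟩
    exact hWU (closure_mono hTW hmem)
  refine ⟨h1, ?_⟩
  intro Ω hΩ hnm
  have hex : ∃ f, (∃ K : Set X, IsCompact K ∧ K.Nonempty ∧ K ⊆ Ω ∧ LyapunovStable Φ f K) ∧
      ∀ K : Set X, IsCompact K → LyapunovStable Φ f K → RobustlyStable Φ f K := by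
    by_contra hno
    push_neg at hno
    apply hnm
    unfold IsMeagre
    filter_upwards [h1] with f hf
    intro hK
    obtain ⟨K, hK1, hK2, hK3⟩ := hno f hK
    exact hK3 (hf K hK1 hK2)
  obtain ⟨f, ⟨K, hK, hKne, hKΩ, hst⟩, hrob⟩ := hex
  obtain ⟨W, hWo, hKW, hWΩ, hWc⟩ := exists_open_between_and_isCompact_closure hK hΩ hKΩ
  obtain ⟨V, hV, hKV, 𝓥, h𝓥, hf𝓥, hstay⟩ := hrob K hK hst W hWo hKW
  refine ⟨𝓥, h𝓥, ⟨f, hf𝓥⟩, V ∩ W, hV.inter hWo, ?_, ?_, closure W, hWc, hWΩ, ?_⟩
  · obtain ⟨x, hx⟩ := hKne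
    exact ⟨x, hKV hx, hKW hx⟩
  · exact inter_subset_right.trans (subset_closure.trans hWΩ)
  · intro f' hf' x hx t ht hD
    exact subset_closure (hstay f' hf' x hx.1 t ht hD)

end Pool.Agent.Results.MP_5027f4_mp.RobustStability
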