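import Pool.Agent.Q205.Liou.Core

/-!
# Planar `n`-body problem: the points trapped in a compact set, and Lyapunov stability

The definitions of the planar `n`-body problem are those of the starting file
`Pool/Agent/W821/TB/Base.lean`: `Ph n = (Fin n → ℂ) × (Fin n → ℂ)`, positions and velocities;
`acc m q a`, the Newtonian acceleration; `phaseSpace m`, the phase points without collisions in the
centre of mass frame; `IsSol m J y`, `y` is a solution on the time set `J`.

From `Pool/Agent/Q205/Liou`:

* `CollisionFree N`: `N` is a compact set of phase points without collisions;
* `Stays m J N z`: the solution with the value `z` at the time `0` exists on `J` and stays in `N`;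
* `core m N`: the union of all open sets whose points in the centre of mass frame have solutions
  which exist and stay in `N` for all positive times;
* `Stable m K`: Lyapunov stability (for positive times) of the set `K`;
* `Recurrent m z`: the solution through `z` exists for all times and returns arbitrarily close to `z`
  at arbitrarily large positive and negative times;
* `IsCom m z`, centre of mass at rest in the origin; `AlmostEvery m P`, `Generic m P`: in linear
  coordinates (`IsCoord`) on the space `IsCom m`, `P` holds Lebesgue almost everywhere, on a
  residual set.
-/

set_option autoImplicit false

namespace Pool.Agent.Results.MP_5027f4_mp.TrappedAndEscapingPoints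

open Pool.Agent.W821.TB Pool.Agent.Q205.Liou

/-- **Theorem.** Planar `n`-body problem with the masses `m` in the centre of mass frame.

Let `N` be a compact set of collision free phase points.
1. Generic initial conditions `z` belong to `core m N`, or their solutions leave `N` (or end) both in
   forward and in backward time.
2. The core is open; a solution which starts in it exists for all positive and negative times and
   stays in the core and in `N`; almost every and generic points of the core are recurrent.
3. The core is the same for both directions of time: it contains (in the centre of mass frame) also
   every open set of points whose solutions stay in `N` for all negative times.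

A compact set `K` in the phase space is Lyapunov stable if and only if it is contained in the core of
each of its compact collision free neighbourhoods. -/
theorem result {n : ℕ} (m : Fin n → ℝ) :
    (∀ N : Set (Ph n), CollisionFree N →
      Generic m (fun z => z ∈ core m N ∨
        (¬ Stays m (Set.Ici 0) N z ∧ ¬ Stays m (Set.Iic 0) N z)) ∧
      IsOpen (core m N) ∧
      (∀ z ∈ core m N, IsCom m z → ∃ y : ℝ → Ph n, IsSol m Set.univ y ∧ y 0 = z ∧
        ∀ t, y t ∈ core m N ∧ y t ∈ N) ∧
      AlmostEvery m (fun z => z ∈ core m N → Recurrent m z) ∧
      Generic m (fun z => z ∈ core m N → Recurrent m z) ∧
      ∀ V, IsOpen V → (∀ z ∈ V, IsCom m z → Stays m (Set.Iic 0) N z) →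
        ∀ z ∈ V, IsCom m z → z ∈ core m N) ∧
    ∀ K : Set (Ph n), IsCompact K → K ⊆ phaseSpace m →
      (Stable m K ↔ ∀ N : Set (Ph n), CollisionFree N → K ⊆ interior N → K ⊆ core m N) := by
  refine ⟨fun N hN => ?_, fun K hK hKp => stable_iff m hK hKp⟩
  obtain ⟨h1, h2, h3, h4, h5, h6⟩ := core_main m hN
  exact ⟨h6, h1, h2, h4, h5, h3⟩

end Pool.Agent.Results.MP_5027f4_mp.TrappedAndEscapingPoints
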